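import Pool.Agent.U365.POW.D
import Pool.Agent.Results.MP_9d7cd1_nt.MultiplicativeValues

/-!
# Hall's conjecture near sums of proper divisors and near the values `α m + β f(m)`

Let `s(m)` be the sum of the proper divisors of `m`. Let `G` be a function with steps bounded below by a positive constant and
growth at most `v ^ e`, for example `G v = v`, let `κ ≥ 0` and `5 e / 6 + κ < 1`. For a set of `m` of lower density at least
`1 - 5 e / 6 - κ`, EVERY integral point `(x, y)` of every curve `y ^ 2 = x ^ 3 + D`, `D ≠ 0`, with `||x| - G (s(m))| ≤ s(m) ^ κ`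
satisfies `|x| < 32 |D|` (Hall's conjecture asks for `|D| ≥ C |x| ^ (1/2 - ε)`), and the same holds for `m - φ(m)`. More precisely
this holds for almost all `m` with a divisor `≥ m ^ (5 e / 6 + κ + ρ)` which is a prime or the product of two different primes,
and for the values `g = α m + β f(m)` of multiplicative functions with `f p = p + c` at the primes, uniformly in
`|α|, |β| ≤ N ^ δ` and with a power saving in the number of the exceptional `m`.

Proof. The number of the `x ≤ X` with an exceptional `y` is at most `X ^ (5/6 + ε)` (starting file). Let `m = k v p` with large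
primes `p ≠ v`. Then `g = A v p + B (v + p) + B c`, `A = α k + β f(k)`, `B = β c f(k)`, and so
`(A v + B) (A p + B) = A g + B² - A B c`: for given `g`, `k`, `α`, `β` there are only `N^o(1)` possibilities for `p` and `v`.
-/

set_option autoImplicit false

namespace Pool.Agent.Results.MP_9d7cd1_nt.AliquotValues

open Pool.Agent.U365.POW (Values Dens NearAll values_nat values_of values_mono dens_mono)
open Pool.Agent.N733.TG (Expanding)
open Pool.Agent.Results.MP_9d7cd1_nt.MultiplicativeValues (mem_E)

/-- EVERY integral point `(x, y)` of every curve `y ^ 2 = x ^ 3 + D`, `D ≠ 0`, with `||x| - G g| ≤ g ^ κ` satisfies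
`|x| < 32 |D|`. -/
def Near (G : ℕ → ℝ) (κ : ℝ) (g : ℕ) : Prop :=
  ∀ D x y : ℤ, D ≠ 0 → y ^ 2 = x ^ 3 + D → |(|x| : ℝ) - G g| ≤ (g : ℝ) ^ κ → |x| < 32 * |D|

/-- **Theorem.** Let `G` have steps `≥ a > 0` and growth at most `v ^ e`, `κ ≥ 0` and `5 e / 6 + κ < 1`. For every `ρ > 0` the
property `Near` holds for the values of similar functions as the aliquot sum (`Values`: for `s(m)`, for `m - φ(m)` and for all
`α m + β f(m)`, for almost all the `m` with a divisor `≥ m ^ (5 e / 6 + κ + ρ)` which is a prime or the product of two different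
primes), and it holds for `s(m)` and `m - φ(m)` for a set of `m` of lower density at least `1 - (5 e / 6 + κ)`. -/
theorem result : ∀ (G : ℕ → ℝ) (e : ℝ), Expanding G e → ∀ κ : ℝ, 0 ≤ κ → e * (5 / 6) + κ < 1 →
    (∀ ρ : ℝ, 0 < ρ → Values (e * (5 / 6) + κ + ρ) (Near G κ)) ∧ Dens (1 - (e * (5 / 6) + κ)) (Near G κ) := by
  intro G e hG κ hκ h1
  obtain ⟨h2, h3⟩ := values_of (fun t : ℕ => t ∈ Pool.Agent.V60.Hall.E) (fun _ => False) (fun t : ℕ => (t : ℝ)) hG
    (s := 5 / 6) (κ := κ) (by norm_num) hκ h1 (fun ε hε => by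
      obtain ⟨C, hC⟩ := Pool.Agent.V60.Hall.count ε hε
      refine ⟨C, fun X hX => ?_⟩
      have he : {t : ℕ | (t ∈ Pool.Agent.V60.Hall.E ∧ ¬ False) ∧ (t : ℝ) ≤ X} =
          {t : ℕ | t ∈ Pool.Agent.V60.Hall.E ∧ (t : ℝ) ≤ X} := by
        ext t
        simp
      rw [he]
      exact hC X hX)
  have hm : ∀ g : ℕ, NearAll (fun t : ℕ => t ∈ Pool.Agent.V60.Hall.E) (fun _ => False) (fun t : ℕ => (t : ℝ)) G κ g →
      Near G κ g := by
    intro g hg D x y hD hxy hw
    by_contra hx
    refine hg x.natAbs (mem_E hD hxy hx) ?_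
    have e : ((x.natAbs : ℕ) : ℝ) = |(x : ℝ)| := by
      rw [Nat.cast_natAbs]
      push_cast
      rfl
    show |((x.natAbs : ℕ) : ℝ) - G g| ≤ (g : ℝ) ^ κ
    rw [e]
    exact hw
  exact ⟨fun ρ hρ => values_mono (h2 ρ hρ) hm, dens_mono h3 le_rfl hm⟩

end Pool.Agent.Results.MP_9d7cd1_nt.AliquotValues
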