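import Pool.Agent.U536.CF.F
import Pool.Agent.Results.MP_9d7cd1_nt.MultiplicativeValues

/-!
# Hall's conjecture for all abscissas near integers with a large common factor with a value of a multiplicative function

Let `f` be a positive multiplicative function of at most polynomial growth such that `f p ≤ M p` for the large primes `p`,
with different values at different large primes; for example Euler's function or the sum of the divisors. Let `G` have
steps bounded below by a positive constant and growth at most `v^e`, for example `α v^e`. Let `b < 1` and `0 ≤ c < 2 b -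
1`. For all `m ≤ N` but `N exp (-(log N)^c)`, for EVERY integer `w ≥ exp ((log N)^b)` with `gcd(w, f(m)) ≥ w^ρ`, EVERY
integral point `(x, y)` of every curve `y ^ 2 = x ^ 3 + D`, `D ≠ 0`, with `||x| - G w| ≤ w ^ κ` satisfies `|x| < 32 |D|`
(much more than Hall's bound `|x| ≤ C |D| ^ (2 + ε)`), if `κ ≥ 0` and `5 e / 6 + κ < ρ ≤ 1`. The integers `w` include all
large divisors of `f(m)` and their multiples by small integers; for Euler's function, the orders of the elements of the
group of units modulo `m`.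

Proof. Write `m = k u` with `u` squarefree and composed of primes larger than `N^(1/J)`, `J = (log N)^a`, and `k ≤ exp (4
(log N)^a)`; this is possible for all `m ≤ N` but very few. If `v ∣ f(k) f(u)`, then `v = g v'` with `g ∣ f(k)` and `v' ∣
∏ f(p)`, and the number of such `u ≤ N / k` is at most `N / (k v')` times `(log N)^O(J)` times the number `τ_J(v')` of the
ordered factorizations of `v'` into `J` factors. The inequality `τ_J^q ≤ τ_K` for `K ≥ J^q` and Hölder's inequality bound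
the sum over the sparse set of the exceptional `v`. The file `MultiplicativeValues` of the starting library treats the
integers `w = f(m)`, with `N / (log N)^U` exceptions.
-/

set_option autoImplicit false

namespace Pool.Agent.Results.MP_9d7cd1_nt.CommonFactors

open Finset
open Pool.Agent.N733.TG (LM Expanding lm_totient lm_sigma expanding_pow)
open Pool.Agent.U536.CF (Common common_windows common_of_dvd common_order)
open Pool.Agent.Results.MP_9d7cd1_nt.MultiplicativeValues (mem_E)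

/-- **Hall's conjecture for all abscissas near integers with a large common factor with a value of a multiplicative
function.** Let `f` be multiplicative and positive, of at most polynomial growth, with `f p ≤ M p` at the large primes,
and injective there. Let `G` have steps `≥ a > 0` and growth at most `v^e`. Let `b < 1` and `0 ≤ c < 2 b - 1`, `κ ≥ 0` and
`5 e / 6 + κ < ρ ≤ 1`. For all large `N`, for all `m ≤ N` but `N exp (-(log N)^c)`, for EVERY integer `w ≥ exp ((log
N)^b)` with `gcd(w, f(m)) ≥ w^ρ`, EVERY integral point `(x, y)` of every curve `y ^ 2 = x ^ 3 + D`, `D ≠ 0`, with `||x| -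
G w| ≤ w ^ κ` satisfies `|x| < 32 |D|` (much more than Hall's bound `|x| ≤ C |D| ^ (2 + ε)`). All divisors `w ≥ exp ((log
N)^b)` of `f(m)` are such integers `w`, and for Euler's function the orders `≥ exp ((log N)^b)` of the units modulo `m`.
Euler's function and the sum of the divisors are examples of `f`, and `α v^e` with `α > 0`, `e ≥ 1` is an example of `G`. -/
theorem result :
    (∀ f : ℕ → ℕ, LM f → ∀ (G : ℕ → ℝ) (e : ℝ), Expanding G e → ∀ κ ρ b c : ℝ, 0 ≤ κ → e * (5 / 6) + κ < ρ → ρ ≤ 1 →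
      b < 1 → 0 ≤ c → c < 2 * b - 1 → ∃ N₀ : ℕ, ∀ N : ℕ, N₀ ≤ N →
      ({m : ℕ | 1 ≤ m ∧ m ≤ N ∧ ¬ ∀ w : ℕ, Common f b ρ N m w → ∀ D x y : ℤ, D ≠ 0 → y ^ 2 = x ^ 3 + D →
        |(|x| : ℝ) - G w| ≤ (w : ℝ) ^ κ → |x| < 32 * |D|}.ncard : ℝ) ≤ N * Real.exp (-(Real.log N ^ c))) ∧
    (LM Nat.totient ∧ LM (fun m => ∑ d ∈ m.divisors, d)) ∧
    (∀ α d : ℝ, 0 < α → 1 ≤ d → Expanding (fun v => α * (v : ℝ) ^ d) d) ∧
    (∀ (f : ℕ → ℕ) (b ρ : ℝ) (N m w : ℕ), ρ ≤ 1 → Real.exp (Real.log N ^ b) ≤ (w : ℝ) → w ∣ f m → Common f b ρ N m w) ∧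
    ∀ (b ρ : ℝ) (N m : ℕ), ρ ≤ 1 → ∀ x : (ZMod m)ˣ, Real.exp (Real.log N ^ b) ≤ (orderOf x : ℝ) →
      Common Nat.totient b ρ N m (orderOf x) := by
  refine ⟨?_, ⟨lm_totient, lm_sigma⟩, fun α d hα hd => expanding_pow hα hd, fun f b ρ N m w hρ hw hd => common_of_dvd hρ hw hd,
    fun b ρ N m hρ x hx => common_order hρ x hx⟩
  refine fun f hf G e hG κ ρ b c hκ h1 hρ hb hc hcb => ?_
  obtain ⟨N₀, hN₀⟩ := common_windows Pool.Agent.V60.Hall.E (fun t : ℕ => (t : ℝ)) hf hG (s := 5 / 6) (κ := κ)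
    (by norm_num) hκ h1 hρ hb hc hcb (fun ε hε => Pool.Agent.V60.Hall.count ε hε)
  refine ⟨N₀, fun N hN => le_trans ?_ (hN₀ N hN)⟩
  have hfin : {m : ℕ | 1 ≤ m ∧ m ≤ N ∧ ∃ w : ℕ, Common f b ρ N m w ∧ ∃ t ∈ Pool.Agent.V60.Hall.E,
      |(t : ℝ) - G w| ≤ (w : ℝ) ^ κ}.Finite := (Set.finite_Icc 1 N).subset fun m hm => ⟨hm.1, hm.2.1⟩
  have hsub : {m : ℕ | 1 ≤ m ∧ m ≤ N ∧ ¬ ∀ w : ℕ, Common f b ρ N m w → ∀ D x y : ℤ, D ≠ 0 → y ^ 2 = x ^ 3 + D →
      |(|x| : ℝ) - G w| ≤ (w : ℝ) ^ κ → |x| < 32 * |D|} ⊆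
      {m : ℕ | 1 ≤ m ∧ m ≤ N ∧ ∃ w : ℕ, Common f b ρ N m w ∧ ∃ t ∈ Pool.Agent.V60.Hall.E,
      |(t : ℝ) - G w| ≤ (w : ℝ) ^ κ} := by
    rintro m ⟨h2, h3, h4⟩
    push Not at h4
    obtain ⟨w, hw0, D, x, y, hD, hxy, hw, hx⟩ := h4
    refine ⟨h2, h3, w, hw0, x.natAbs, mem_E hD hxy (not_lt.2 hx), ?_⟩
    have e : ((x.natAbs : ℕ) : ℝ) = |(x : ℝ)| := by
      rw [Nat.cast_natAbs]
      push_cast
      rfl
    rw [e]
    exact hw
  exact_mod_cast Set.ncard_le_ncard hsub hfin

end Pool.Agent.Results.MP_9d7cd1_nt.CommonFactors
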