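import Pool.Agent.U449.BV.F
import Pool.Agent.V60.LD.HallCount

/-!
# Hall's conjecture for all integral points with abscissa near residues of polynomials on arbitrary sets

Let `κ ≥ 0` and `5/6 + κ < δ ≤ 1`. Let `p` be a large prime, `f(x, y)` ANY polynomial of degree at most `d` over the field of `p`
elements with a monomial which contains both variables (for example `f = x y`), let `A`, `B` be ARBITRARY sets of at least
`p ^ δ` residues, and `g`, `h` ARBITRARY functions from the residues to the residues. For all the pairs `(a, b)` in `A × B`, apart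
from a proportion of at most `p ^ (-ρ)`, EVERY integral point `(x, y)` of every curve `y ^ 2 = x ^ 3 + D`, `D ≠ 0`, for which `|x|` is
at a distance of at most `p ^ κ` from the least residue of `f(a, b) + g(a) + h(b)` satisfies `|x| < 32 |D|`, which is much more
than Hall's bound `|x| ≤ C |D| ^ (2 + ε)`. More generally, this holds for the values `F(a, b)` of all functions of two variables
with few coincidences (`Rare`), on arbitrary finite sets.

Since the sets and the functions `g` and `h` are arbitrary, the values have no arithmetic structure, and a value may be taken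
by very many pairs. So the number of the exceptions (starting library) does not give the result directly. Proof: the
inequality of Cauchy and Schwarz; for most pairs `a, a'` the difference `F(a, b) - F(a', b)` is small for few `b`
(`Pool.Agent.U449.BV`).
-/

set_option autoImplicit false

namespace Pool.Agent.Results.MP_9d7cd1_nt.MixedPolynomials

open Finset
open Pool.Agent.U449.BV (Rare OnProducts on_products_set residues)

lemma mem_E {d x y : ℤ} (hd : d ≠ 0) (h : y ^ 2 = x ^ 3 + d) (hx : ¬ |x| < 32 * |d|) :
    x.natAbs ∈ Pool.Agent.V60.Hall.E := by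
  have hd1 : 1 ≤ |d| := Int.one_le_abs hd
  have hx0 : 0 < x := by
    by_contra hcon
    push Not at hcon
    -- `x ≤ 0`: then `|d| ≥ |x| ^ 3`
    obtain ⟨z, hz⟩ : ∃ z : ℤ, z = -x := ⟨_, rfl⟩
    have hz0 : 0 ≤ z := by omega
    have e : x = -z := by omega
    have e2 : d = y ^ 2 + z ^ 3 := by
      rw [e] at h
      have : (-z) ^ 3 = -(z ^ 3) := by ring
      rw [this] at h
      linarith
    have h3 : 0 ≤ z ^ 3 := by positivity
    have h4 : z ≤ z ^ 3 := by
      rcases hz0.eq_or_lt with h0 | h0
      · rw [← h0]; norm_num
      · have h1 : 1 ≤ z := h0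
        exact le_self_pow₀ h1 (by norm_num)
    have h5 : 0 ≤ y ^ 2 := sq_nonneg y
    have h6 : |d| = d := abs_of_nonneg (by linarith)
    have h7 : |x| = z := by rw [e, abs_neg, abs_of_nonneg hz0]
    apply hx
    rw [h6, h7]
    linarith
  refine ⟨y.natAbs, ?_, ?_⟩
  · rw [Int.natCast_natAbs, Int.natCast_natAbs, sq_abs, abs_of_pos hx0]
    intro h1
    apply hd
    linarith
  · rw [Int.natCast_natAbs, Int.natCast_natAbs, sq_abs, abs_of_pos hx0]
    have h1 : y ^ 2 - x ^ 3 = d := by linarith
    rw [h1]
    rw [abs_of_pos hx0] at hx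
    push Not at hx
    exact hx

/-- EVERY integral point `(x, y)` of every curve `y ^ 2 = x ^ 3 + D`, `D ≠ 0`, with `||x| - v| ≤ W` satisfies `|x| < 32 |D|`. -/
def Near (W v : ℝ) : Prop :=
  ∀ D x y : ℤ, D ≠ 0 → y ^ 2 = x ^ 3 + D → |(|x| : ℝ) - v| ≤ W → |x| < 32 * |D|

/-- **Theorem.** Let `κ ≥ 0`. The property `Near`, with windows of length `X ^ κ`, holds for almost all values of functions of two
variables with few coincidences, on arbitrary finite sets of at least `X ^ δ` elements, `5/6 + κ < δ ≤ 1` (`OnProducts`).
The least residues modulo a prime `p` of `f(a, b) + g(a) + h(b)` are such a function, with `X = p`, for all polynomials `f`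
modulo `p` with a monomial which contains both variables, arbitrary functions `g` and `h`, and arbitrary sets of residues. -/
theorem result :
    (∀ κ : ℝ, 0 ≤ κ → OnProducts (5 / 6 + κ) κ Near) ∧
    ∀ (p : ℕ) [Fact p.Prime] (d : ℕ) (f : MvPolynomial (Fin 2) (ZMod p)), f.totalDegree ≤ d →
      (∃ m ∈ f.support, m 0 ≠ 0 ∧ m 1 ≠ 0) → ∀ (g h : ZMod p → ZMod p) (A B : Finset (ZMod p)),
        Rare d A B (fun a b => (((MvPolynomial.eval ![a, b] f + g a + h b).val : ℕ) : ℝ)) := by
  refine ⟨fun κ hκ => ?_, residues⟩
  refine (on_products_set Pool.Agent.V60.Hall.E (fun t : ℕ => (t : ℝ)) (s := 5 / 6) (κ := κ) (by norm_num) hκ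
    (fun ε hε => Pool.Agent.V60.Hall.count ε hε)).mono fun W v _ hg D x y hD hxy hw => ?_
  by_contra hcon
  refine hg x.natAbs ?_ (mem_E hD hxy hcon)
  rwa [Nat.cast_natAbs, Int.cast_abs]

end Pool.Agent.Results.MP_9d7cd1_nt.MixedPolynomials
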