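import Mathlib
import Pool.Agent.U964.ML.Uni

/-!
# Hall's inequality with the roots of the quotient `x³ / y²`, uniformly in the order of the roots

Let `S` be a finite set of primes and `ε > 0`. For an integral point `(x, y)`, `x, y ≠ 0`, of a Mordell curve
`y² = x³ + d` let `P / Q = |x|³ / y²` in lowest terms. Let `n ≥ 1` be such that all exponents of `P` and `Q` at the
primes outside `S` are divisible by `n` (`n = 1` is always allowed), and let `u`, `v` be the roots of order `n` of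
the parts of `P` and `Q` prime to `S`. We prove

`log max (|x|³, y²) ≤ (1 + ε) (log |d| + log u + log v) + C`,

with a constant `C` which depends on `S` and `ε` only, not on `n`. Hence the conjectured inequality
`log |x| < (2 + ε) log |d| + C` holds for all integral points with `u v ≤ |d| ^ 5`, for some `n ≥ 1`.
-/

set_option autoImplicit false

namespace Pool.Agent.Results.MP_9d7cd1_nt.RootsOfQuotients

/-- all exponents in the factorisation of `w` at the primes outside `S` are divisible by `n` -/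
def Multiples (S : Finset ℕ) (n w : ℕ) : Prop :=
  ∀ q : ℕ, q.Prime → q ∉ S → n ∣ w.factorization q

/-- the root of order `n` of the part of `w` prime to `S` -/
def rootPart (S : Finset ℕ) (n w : ℕ) : ℕ :=
  ∏ q ∈ w.primeFactors with q ∉ S, q ^ (w.factorization q / n)

theorem result (S : Finset ℕ) (ε : ℝ) (hε : 0 < ε) : ∃ C : ℝ, ∀ d x y : ℤ, d ≠ 0 →
    y ^ 2 = x ^ 3 + d → x ≠ 0 → y ≠ 0 → ∀ P Q : ℕ, Nat.Coprime P Q →
      |(x : ℝ)| ^ 3 * Q = (y : ℝ) ^ 2 * P → ∀ n : ℕ, 1 ≤ n → Multiples S n P → Multiples S n Q →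
      Real.log (max (|(x : ℝ)| ^ 3) ((y : ℝ) ^ 2)) ≤
        (1 + ε) * (Real.log |(d : ℝ)| + Real.log (rootPart S n P) + Real.log (rootPart S n Q)) + C ∧
      (Real.log (rootPart S n P) + Real.log (rootPart S n Q) ≤ 5 * Real.log |(d : ℝ)| →
        Real.log |(x : ℝ)| < (2 + ε) * Real.log |(d : ℝ)| + C) := by
  obtain ⟨e, he⟩ : ∃ e : ℝ, e = ε / 2 := ⟨_, rfl⟩
  have he0 : 0 < e := by rw [he]; linarith
  obtain ⟨η, hη⟩ : ∃ η : ℝ, η = e / (1 + e) := ⟨_, rfl⟩
  have hη0 : 0 < η := by rw [hη]; positivity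
  have h1η : (1 - η) * (1 + e) = 1 := by
    rw [hη]
    field_simp
    ring
  have hη1 : 0 < 1 - η := by
    by_contra h
    rw [not_lt] at h
    nlinarith
  obtain ⟨κ, N, hκ, h⟩ := Pool.Agent.U964.ML.uni S 1 1 le_rfl le_rfl η hη0
  obtain ⟨c, hc⟩ : ∃ c : ℝ, c = |Real.log κ| := ⟨_, rfl⟩
  have hc0 : 0 ≤ c := by rw [hc]; exact abs_nonneg _
  refine ⟨(1 + e) * c + 1, ?_⟩
  intro d x y hd hxy hx hy P Q hPQ hrel n hn hP hQ
  obtain ⟨X, hX⟩ : ∃ X : ℕ, X = x.natAbs ^ 3 := ⟨_, rfl⟩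
  obtain ⟨Y, hY⟩ : ∃ Y : ℕ, Y = y.natAbs ^ 2 := ⟨_, rfl⟩
  have hX1 : 1 ≤ X := by rw [hX]; exact pow_pos (Int.natAbs_pos.2 hx) 3
  have hY1 : 1 ≤ Y := by rw [hY]; exact pow_pos (Int.natAbs_pos.2 hy) 2
  have hXr : (X:ℝ) = |(x:ℝ)| ^ 3 := by rw [hX]; push_cast; rw [Nat.cast_natAbs, Int.cast_abs]
  have hYr : (Y:ℝ) = (y:ℝ) ^ 2 := by
    rw [hY]
    push_cast
    rw [Nat.cast_natAbs, Int.cast_abs, sq_abs]
  have hXr1 : (1:ℝ) ≤ X := by exact_mod_cast hX1
  have hYr1 : (1:ℝ) ≤ Y := by exact_mod_cast hY1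
  obtain ⟨V, hV⟩ : ∃ V : ℝ, V = max (X:ℝ) Y := ⟨_, rfl⟩
  have hV1 : 1 ≤ V := by rw [hV]; exact le_max_of_le_left hXr1
  have hV0 : 0 < V := by linarith
  rw [← hXr, ← hYr] at hrel
  have hrelN : X * Q = Y * P := by exact_mod_cast hrel
  have hdr1 : (1:ℝ) ≤ |(d:ℝ)| := by
    have := Int.one_le_abs hd
    exact_mod_cast this
  have hdr0 : 0 < |(d:ℝ)| := by linarith
  have hld : 0 ≤ Real.log |(d:ℝ)| := Real.log_nonneg hdr1
  have hroot : ∀ w : ℕ, rootPart S n w = Pool.Agent.U964.ML.root S n w := fun _ => rfl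
  have hu : (1:ℝ) ≤ rootPart S n P := by
    rw [hroot]
    exact_mod_cast Pool.Agent.U964.ML.root_pos S n P
  have hv : (1:ℝ) ≤ rootPart S n Q := by
    rw [hroot]
    exact_mod_cast Pool.Agent.U964.ML.root_pos S n Q
  have hlu : 0 ≤ Real.log (rootPart S n P) := Real.log_nonneg hu
  have hlv : 0 ≤ Real.log (rootPart S n Q) := Real.log_nonneg hv
  have hkr : (d:ℝ) = (y:ℝ) ^ 2 - (x:ℝ) ^ 3 := by
    have h1 : d = y ^ 2 - x ^ 3 := by linarith
    rw [h1]
    push_cast
    rfl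
  -- `X = g P`, `Y = g Q`
  have hdvd : P ∣ X := by
    have h1 : P ∣ X * Q := ⟨Y, by rw [hrelN, mul_comm]⟩
    exact hPQ.dvd_of_dvd_mul_right h1
  obtain ⟨g, hg⟩ := hdvd
  have hP1 : 1 ≤ P := by
    rcases Nat.eq_zero_or_pos P with h0 | h0
    · rw [h0, zero_mul] at hg; omega
    · exact h0
  have hg1 : 1 ≤ g := by
    rcases Nat.eq_zero_or_pos g with h0 | h0
    · rw [h0, mul_zero] at hg; omega
    · exact h0
  have hYg : Y = Q * g := by
    have h1 : P * (g * Q) = P * Y := by rw [← mul_assoc, ← hg, hrelN, mul_comm]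
    have h2 := Nat.eq_of_mul_eq_mul_left hP1 h1
    rw [← h2, mul_comm]
  have hQ1 : 1 ≤ Q := by
    rcases Nat.eq_zero_or_pos Q with h0 | h0
    · rw [h0, zero_mul] at hYg; omega
    · exact h0
  -- the main inequality
  have key : (1 - η) * Real.log V ≤
      Real.log |(d:ℝ)| + Real.log (rootPart S n P) + Real.log (rootPart S n Q) + c := by
    have hlV : 0 ≤ Real.log V := Real.log_nonneg hV1
    rcases lt_or_gt_of_ne hx with hneg | hpos
    · have hxr : (x:ℝ) < 0 := by exact_mod_cast hneg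
      have h1 : (x:ℝ) ^ 3 = -(X:ℝ) := by
        rw [hXr, abs_of_neg hxr]
        ring
      have h2 : V ≤ |(d:ℝ)| := by
        rw [hkr, h1, ← hYr, sub_neg_eq_add, abs_of_pos (by linarith), hV]
        exact max_le (by linarith) (by linarith)
      have h3 := Real.log_le_log hV0 h2
      nlinarith
    · have hxr : (0:ℝ) < x := by exact_mod_cast hpos
      have h1 : (x:ℝ) ^ 3 = (X:ℝ) := by rw [hXr, abs_of_pos hxr]
      have hdXY : |(d:ℝ)| = |(X:ℝ) - Y| := by rw [hkr, h1, ← hYr, abs_sub_comm]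
      have hne : P ≠ Q := by
        intro h2
        have h3 : (X:ℝ) = Y := by rw [hg, hYg, h2]
        rw [hdXY, h3, sub_self, abs_zero] at hdr0
        exact lt_irrefl _ hdr0
      obtain ⟨W, hW⟩ : ∃ W : ℝ, W = max (P:ℝ) Q := ⟨_, rfl⟩
      have hor : (P:ℝ) = W ∨ (Q:ℝ) = W := by
        rw [hW]
        rcases le_total (P:ℝ) Q with h2 | h2
        · exact Or.inr (max_eq_right h2).symm
        · exact Or.inl (max_eq_left h2).symm
      have hPr1 : (1:ℝ) ≤ P := by exact_mod_cast hP1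
      have hPW : (P:ℝ) ≤ W := by rw [hW]; exact le_max_left _ _
      have hQW : (Q:ℝ) ≤ W := by rw [hW]; exact le_max_right _ _
      have hW0 : 0 < W := by linarith
      have h2 := (h n hn P Q hP1 hQ1 (by omega) hP hQ W hPW hQW hor).2
      have e1 : |((1:ℕ) : ℝ) * P - ((1:ℕ) : ℝ) * Q| = |(P:ℝ) - Q| := by
        push_cast; rw [one_mul, one_mul]
      rw [e1, ← hroot, ← hroot] at h2
      have hPQ0 : 0 < |(P:ℝ) - Q| := by
        rw [abs_pos, sub_ne_zero]
        exact_mod_cast hne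
      have hgr1 : (1:ℝ) ≤ g := by exact_mod_cast hg1
      have hgr0 : (0:ℝ) < g := by linarith
      have hVg : V = g * W := by
        rw [hV, hg, hYg, hW]
        push_cast
        rw [← max_mul_of_nonneg _ _ hgr0.le, mul_comm]
      have hdg : |(d:ℝ)| = g * |(P:ℝ) - Q| := by
        rw [hdXY, hg, hYg]
        push_cast
        rw [← sub_mul, abs_mul, abs_of_pos hgr0, mul_comm]
      have h3 := Real.log_le_log (by positivity) h2
      rw [Real.log_mul hκ.ne' (Real.rpow_pos_of_pos hW0 _).ne', Real.log_rpow hW0,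
        Real.log_mul hPQ0.ne' (by positivity), Real.log_mul (by linarith) (by linarith)] at h3
      have h4 : Real.log V = Real.log g + Real.log W := by
        rw [hVg, Real.log_mul hgr0.ne' hW0.ne']
      have h5 : Real.log |(d:ℝ)| = Real.log g + Real.log |(P:ℝ) - Q| := by
        rw [hdg, Real.log_mul hgr0.ne' hPQ0.ne']
      have h6 : 0 ≤ Real.log g := Real.log_nonneg hgr1
      have h7 : -c ≤ Real.log κ := by rw [hc]; exact neg_abs_le _
      rw [h4, h5]
      nlinarith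
  obtain ⟨T, hT⟩ : ∃ T : ℝ, T = Real.log |(d:ℝ)| + Real.log (rootPart S n P) +
    Real.log (rootPart S n Q) := ⟨_, rfl⟩
  rw [← hT] at key ⊢
  have hT0 : 0 ≤ T := by rw [hT]; linarith
  have hlogV : Real.log V ≤ (1 + e) * T + (1 + e) * c := by
    have h1 := mul_le_mul_of_nonneg_left key (by linarith : (0:ℝ) ≤ 1 + e)
    have h2 : (1 + e) * ((1 - η) * Real.log V) = Real.log V := by
      rw [← mul_assoc, mul_comm (1 + e), h1η, one_mul]
    rw [h2] at h1
    linarith
  rw [← hXr, ← hYr, ← hV]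
  constructor
  · have h1 : e * T ≤ ε * T := mul_le_mul_of_nonneg_right (by rw [he]; linarith) hT0
    linarith
  · intro h5
    have h6 : T ≤ 6 * Real.log |(d:ℝ)| := by rw [hT]; linarith
    have hxr : (1:ℝ) ≤ |(x:ℝ)| := by
      have := Int.one_le_abs hx
      exact_mod_cast this
    have h7 : 3 * Real.log |(x:ℝ)| ≤ Real.log V := by
      have h8 : |(x:ℝ)| ^ 3 ≤ V := by rw [← hXr, hV]; exact le_max_left _ _
      have h9 := Real.log_le_log (by positivity) h8
      rw [Real.log_pow] at h9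
      exact_mod_cast h9
    have h8 : (1 + e) * T ≤ (1 + e) * (6 * Real.log |(d:ℝ)|) :=
      mul_le_mul_of_nonneg_left h6 (by linarith)
    have h9 : e = ε / 2 := he
    have h10 : 0 ≤ (1 + e) * c := by positivity
    rw [h9] at h8 hlogV h10 ⊢
    linarith

end Pool.Agent.Results.MP_9d7cd1_nt.RootsOfQuotients
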